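import Mathlib
import Pool.Agent.Q256.T5.Stk

set_option autoImplicit false

/-!
# Vojta's inequality for the integral points over all quadratic fields on almost all root stacks

`F i` (`i < t`) is a form of degree `dg i ≥ 1` in `n + 2` variables with integral coefficients of
absolute value at most `T` (`Box (n + 1) (dg i) T` is the set of these forms). The indices are
distributed over three sets in an arbitrary way: `X` is the variety `F i = 0` (`i ∉ I`, `i ∉ B`) of
the projective space of dimension `n + 1`, the stack is the root stack of `X` along the divisors
`F i = 0` (`i ∈ I`) with arbitrary orders `m i ≥ 1`, and the boundary `D_B` is the divisor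
`∏ F i = 0` (`i ∈ B`). The sum of the canonical divisor of the stack and of the boundary has degree
`degKD n dg I m = ∑ dg i - ∑_{i ∈ I} dg i / m i - (n + 2)`.

* A quadratic point `x` has homogeneous coordinates `p k + q k √D`, where `D ≠ 1` is squarefree and
  `p`, `q` are linearly independent integral vectors (`QPt p q D`); so `ℚ(x) = ℚ(√D)`.
* `cont p q D` is the norm of the ideal generated by the coordinates, that is the content of the
  norm of the linear form `∑ (p k + q k √D) Y k`, and `hgt p q D` the absolute logarithmic height of
  `x`: half of the logarithm of `H2 p q D = max_k |p k + q k √D| max_k |p k - q k √D| / cont p q D`.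
* `valD F p q D` is the value of `F` at these coordinates, and `nval d F p q D` is its norm divided
  by the norm of the `d`-th power of the ideal generated by the coordinates.
* `Orb S e m`: every prime outside `S` which divides `m` does so at least `e` times. If `x` comes
  from an integral point of the root stack over the `S`-integers of `ℚ(√D)`, the order of `F i (x)`
  (normalized by the ideal of the coordinates) at each prime of `ℚ(√D)` outside `S` is divisible by
  `m i`, so that `Orb S (m i) (nval (dg i) (F i) p q D)` holds. Only this is used.
* `N1 S 2 m` is `(1/2) ∑ log p`, the sum over the primes `p` outside `S` which divide `m`. For the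
  product `m` of the `nval (dg i) (F i) p q D` (`i ∈ B`) it is at most the truncated counting
  function `N^(1)(D_B, x)`, divided by `2`; and `(1/2) log |D|` is at most the logarithmic
  discriminant of `ℚ(√D)`.

`BadS dg S T κ` is the set of the systems `F` such that, for some `I`, `B` and `m` and some quadratic
point `x` of `X` with `h(x) ≤ (1/2) log T`, outside `D_B` and with `Orb S (m i)` for `i ∈ I` (the
point `x` may be on the divisors `F i = 0`, `i ∈ I`), the inequality
`N1 + (1/2) log |D| ≥ deg(K + D_B) h(x) + (t - ∑_{i ∈ I} 1 / m i - κ / 2) log T - c` is false, where
`c` is the sum of the logarithms of the numbers of the coefficients of the `F i`.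
-/

namespace Pool.Agent.Results.MP_a41896_nt.AllQuadraticFields

open Pool.Agent.Q256.T5

/-- **Vojta's inequality with truncated counting function for the integral points over all quadratic
fields, of height at most `(log T) / 2`, on the root stacks of almost all complete intersections
along almost all hypersurface sections.** Let `t ≤ n`, `S` a finite set of primes, `η > 0`. Of the
systems `F 0, …, F (t - 1)` with integral coefficients in `[-T, T]` all but
`C T ^ (∑ N_i - κ + η)` satisfy, for ALL sets `I`, `B` (ALL complete intersections, root divisors
and boundaries that are given by the system), ALL orders `m i ≥ 1`, ALL quadratic fields and ALL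
quadratic points `x` of `X` outside `D_B` with `h(x) ≤ (1/2) log T` which come from an integral point
of the root stack, that the truncated counting function plus the logarithmic discriminant is at
least `deg (K + D_B) h(x) + (t - ∑_{i ∈ I} 1 / m i - κ / 2) log T - c`. Here `N_i` is the number of
the coefficients of `F i`, and `κ` is an arbitrary real number. -/
theorem result {n t : ℕ} (ht : t ≤ n) (dg : Fin t → ℕ) (hdg : ∀ i, 1 ≤ dg i) (S : Finset ℕ)
    (η : ℝ) (hη : 0 < η) :
    ∃ C : ℝ, ∀ (T : ℕ) (κ : ℝ), 1 ≤ T →
      ((BadS (n := n) dg S T κ).ncard : ℝ) ≤
        C * (T : ℝ) ^ (∑ i, ((n + 1 + dg i).choose (n + 1) : ℝ) - κ + η) :=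
  badS_count ht dg hdg S η hη

end Pool.Agent.Results.MP_a41896_nt.AllQuadraticFields
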