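import Mathlib
import Pool.Agent.Q51.VY.Cmp
import Pool.Agent.Q51.VY.Trunc
import Pool.Agent.Q51.HG.SmoothCI

set_option autoImplicit false

/-!
# Integral points of 100 percent of the root stacks over `ℚ`: the truncated inequality without
exceptional set for the points with a sparse factorisation

Let `F 1, …, F q` be forms of degrees `d 1, …, d q` in `n + 1` variables over `ℚ` and let `C` and `I`
be disjoint subsets of `{1, …, q}`. Let `V` be the complete intersection `F c = 0`, `c ∈ C`, in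
projective `n`-space (all of it, if `C` is empty), `X` the root stack of `V` along the divisors
`F b = 0`, `b ∈ I`, with multiplicities `m b ≥ 1`, and `𝒟` the divisor `∑_{b ∉ C ∪ I} (F b = 0)` of
`X`. A rational point `x` of `V` off all the divisors is an `S`-integral point of `X` if the orders of
`F b (x)` at the primes outside `S` are divisible by `m b`, for `b ∈ I`. The canonical class of `X` is
`∑_{c ∈ C} d c - n - 1 + ∑_{b ∈ I} (1 - 1 / m b) d b` times the hyperplane class.

For every `r` and every matrix `e` of exponents, with `m b ∣ e b l` for `b ∈ I`, there is a nonzero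
polynomial `h` with integral coefficients in the coefficients of the forms, such that for ALL forms with
`h (F) ≠ 0` (that is, for 100 percent of the root stacks `X` with a divisor `𝒟`) the hypersurfaces are
smooth and meet transversally, and for all finite sets `S` of primes, all `B` and all `ε > 0` there are
`δ > 0` and a constant such that ALL primitive integer points `x` of `V` off the divisors with

  `F b (x) = u b * ∏ l, z l ^ e b l`  (`b ∉ C`, `u b` an `S`-unit, the `z l` integers prime to `S`),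

such that the coordinates of `x` and the factors `z l` are sums of `r` `S`-units with integer
coefficients of size at most `B H(x) ^ δ`, and the factors `z l` that occur in `𝒟` are squarefree and
pairwise coprime, are `S`-integral points of `X` and satisfy

  `h_{K_X + 𝒟}(x) ≤ N^(1)_S(𝒟, x) + (dim V - 1 + ε) h(x) + O(1)`.

There is no exceptional set. (Vojta's conjecture for stacks has `ε h(x)` on the right side, for the
points outside a proper closed subset; for `dim V = 1` the inequality above is Vojta's, with empty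
exceptional set.)
-/

namespace Pool.Agent.Results.MP_a41896_nt.NoExceptionalSet

open MvPolynomial

/-- The indices of the coefficients of `q` forms of degrees `d i` in `n + 1` variables. -/
abbrev Index (n : ℕ) {q : ℕ} (d : Fin q → ℕ) : Type :=
  (i : Fin q) × {α : Fin (n + 1) →₀ ℕ // α.degree = d i}

/-- The value of the polynomial `h` at the coefficients of the forms `F i`. -/
noncomputable def valueAt {n q : ℕ} {d : Fin q → ℕ} {K : Type} [Field K]
    (h : MvPolynomial (Index n d) ℤ) (F : Fin q → MvPolynomial (Fin (n + 1)) K) : K :=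
  aeval (fun x : Index n d => coeff x.2.1 (F x.1)) h

/-- The hypersurfaces `F i = 0` are smooth and meet transversally: in every point of projective space
(over any field `Ω ⊇ K`) the gradients of those `F i` that vanish there are linearly independent. -/
def Transversal {n q : ℕ} {K : Type} [Field K] (F : Fin q → MvPolynomial (Fin (n + 1)) K) : Prop :=
  ∀ (Ω : Type) [Field Ω] [Algebra K Ω] (x : Fin (n + 1) → Ω), x ≠ 0 →
    LinearIndependent Ω (fun i : {i // aeval x (F i) = 0} => fun k => aeval x (pderiv k (F i.1)))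

/-- `x` is a primitive integer vector; every rational point of a projective space is represented by
exactly two of them, `x` and `-x` -/
def IsPrimitive {n : ℕ} (x : Fin (n + 1) → ℤ) : Prop :=
  Finset.univ.gcd x = 1

/-- `max |x_i|`, the multiplicative height of the point given by a primitive `x` -/
def height {n : ℕ} (x : Fin (n + 1) → ℤ) : ℕ :=
  Finset.univ.sup (fun i => (x i).natAbs)

/-- The value `F (x)`. -/
noncomputable def value {n : ℕ} (F : MvPolynomial (Fin (n + 1)) ℚ) (x : Fin (n + 1) → ℤ) : ℚ :=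
  eval (fun i => (x i : ℚ)) F

/-- `u` is an `S`-unit: plus or minus a product of powers (with integer exponents) of the primes in
`S` -/
def IsSUnit (S : Finset ℕ) (u : ℚ) : Prop :=
  ∃ (σ : ℤ) (e : ℕ → ℤ), (σ = 1 ∨ σ = -1) ∧ u = σ * ∏ p ∈ S, (p : ℚ) ^ e p

/-- The coordinates `x i` and the factors `z l` are sums of `r` `S`-units `t j` (the same for all of
them) with integer coefficients of absolute value at most `B * H(x) ^ δ`. -/
def IsShortSum {n ν : ℕ} (S : Finset ℕ) (r : ℕ) (B δ : ℝ) (x : Fin (n + 1) → ℤ) (z : Fin ν → ℤ) :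
    Prop :=
  ∃ (t : Fin r → ℚ) (a : Fin r → Fin (n + 1) → ℤ) (c : Fin r → Fin ν → ℤ),
    (∀ j, IsSUnit S (t j)) ∧ (∀ j i, |(a j i : ℝ)| ≤ B * (height x : ℝ) ^ δ) ∧
    (∀ j l, |(c j l : ℝ)| ≤ B * (height x : ℝ) ^ δ) ∧
    (∀ i, (x i : ℚ) = ∑ j, t j * a j i) ∧ ∀ l, (z l : ℚ) = ∑ j, t j * c j l

/-- `x` is an `S`-integral point of the root stack along the divisors `F b = 0`, `b ∈ I`, with
multiplicities `m b` (and off these divisors) -/
def IsIntegralPoint {n q : ℕ} (S : Finset ℕ) (I : Finset (Fin q)) (m : Fin q → ℕ)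
    (F : Fin q → MvPolynomial (Fin (n + 1)) ℚ) (x : Fin (n + 1) → ℤ) : Prop :=
  ∀ b ∈ I, value (F b) x ≠ 0 ∧ ∀ p : ℕ, p.Prime → p ∉ S → (m b : ℤ) ∣ padicValRat p (value (F b) x)

/-- The truncated counting function `N^(1)_S(𝒟, x)`, `𝒟` the sum of the divisors `F b = 0`, `b ∈ T`:
the sum of `log p` over the primes `p` outside `S` which divide the numerator of some `F b (x)`,
`b ∈ T`, each counted once. -/
noncomputable def truncatedCounting {n q : ℕ} (S : Finset ℕ) (T : Finset (Fin q))
    (F : Fin q → MvPolynomial (Fin (n + 1)) ℚ) (x : Fin (n + 1) → ℤ) : ℝ :=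
  ∑ p ∈ (∏ b ∈ T, (value (F b) x).num.natAbs).primeFactors \ S, Real.log p

/-- The height for the class `K_X + 𝒟` of the root stack `X` along the divisors `F b = 0`, `b ∈ I`,
of the complete intersection `F c = 0`, `c ∈ C`, and the divisor `𝒟 = ∑_{b ∉ C ∪ I} (F b = 0)`. -/
noncomputable def stackHeight (n : ℕ) {q : ℕ} (d : Fin q → ℕ) (C I : Finset (Fin q)) (m : Fin q → ℕ)
    (x : Fin (n + 1) → ℤ) : ℝ :=
  (∑ c ∈ C, (d c : ℝ) - (n + 1) + ∑ b ∈ I, (1 - 1 / (m b : ℝ)) * d b +
    ∑ b ∈ Finset.univ \ (C ∪ I), (d b : ℝ)) * Real.log (height x)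

theorem valueAt_eq {n q : ℕ} {d : Fin q → ℕ} {K : Type} [Field K]
    (h : MvPolynomial (Index n d) ℤ) (F : Fin q → MvPolynomial (Fin (n + 1)) K) :
    valueAt h F = Pool.Agent.Q51.HG.sp d F h := rfl

theorem transversal_of {n q : ℕ} {d : Fin q → ℕ} {h : MvPolynomial (Index n d) ℤ}
    (hh : ∀ (L : Type) [Field L] (F : Fin q → MvPolynomial (Fin (n + 1)) L),
      (∀ i, (F i).IsHomogeneous (d i)) → Pool.Agent.Q51.HG.sp d F h ≠ 0 →
      ∀ x : Fin (n + 1) → L, x ≠ 0 →
      LinearIndependent L (fun i : {i // eval x (F i) = 0} => fun k =>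
        eval x (pderiv k (F i.1))))
    {K : Type} [Field K] (F : Fin q → MvPolynomial (Fin (n + 1)) K)
    (hF : ∀ i, (F i).IsHomogeneous (d i)) (hv : valueAt h F ≠ 0) : Transversal F := by
  intro Ω _ _ x hx
  have h1 := hh Ω (fun i => map (algebraMap K Ω) (F i)) (fun i => (hF i).map _) (by
    rw [Pool.Agent.Q51.HG.sp_map]
    exact (map_ne_zero _).2 hv) x hx
  have h2 : ∀ i k, eval x (pderiv k (map (algebraMap K Ω) (F i))) = aeval x (pderiv k (F i)) := by
    intro i k
    rw [pderiv_map, eval_map, ← aeval_def]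
  have h3 : ∀ i, eval x (map (algebraMap K Ω) (F i)) = aeval x (F i) := by
    intro i
    rw [eval_map, ← aeval_def]
  simp only [h2] at h1
  refine (h1.comp (fun i : {i // aeval x (F i) = 0} => ⟨i.1, by rw [h3]; exact i.2⟩) ?_)
  intro i i' hii
  simpa [Subtype.ext_iff] using hii

/-- the orders of the values -/
theorem order_dvd {ν : ℕ} (S : Finset ℕ) (hS : ∀ p ∈ S, p.Prime) (p : ℕ) (hpp : p.Prime)
    (hp : p ∉ S) (u : ℚ) (hu : IsSUnit S u) (e : Fin ν → ℕ) (z : Fin ν → ℤ) (hz : ∀ l, z l ≠ 0)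
    (m : ℕ) (hm : ∀ l, m ∣ e l) : (m : ℤ) ∣ padicValRat p (u * ∏ l, (z l : ℚ) ^ e l) := by
  classical
  have hfact := Fact.mk hpp
  choose k hk using hm
  have hP : (∏ l, (z l : ℚ) ^ e l) = (∏ l, (z l : ℚ) ^ k l) ^ m := by
    rw [← Finset.prod_pow]
    exact Finset.prod_congr rfl fun l _ => by rw [← pow_mul, hk l, mul_comm]
  have hP0 : (∏ l, (z l : ℚ) ^ k l) ≠ 0 :=
    Finset.prod_ne_zero_iff.2 fun l _ => pow_ne_zero _ (by exact_mod_cast hz l)
  have hu0 : u ≠ 0 := by
    obtain ⟨σ, e, hσ, rfl⟩ := hu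
    refine mul_ne_zero ?_ (Finset.prod_ne_zero_iff.2 fun v hv => zpow_ne_zero _ ?_)
    · rcases hσ with rfl | rfl <;> simp
    · exact_mod_cast (hS v hv).ne_zero
  have hu1 : padicValRat p u = 0 := by
    have h1 := Pool.Agent.Q51.VY.padic_unit S hS p hp u hu
    rw [Rat.AbsoluteValue.padic_eq_padicNorm, padicNorm.eq_zpow_of_nonzero hu0] at h1
    have h2 : ((p : ℚ) ^ (-padicValRat p u)) = 1 := by exact_mod_cast h1
    have hp1 : (1 : ℚ) < p := by exact_mod_cast hpp.one_lt
    have h3 := (zpow_eq_one_iff_right₀ (by linarith : (0 : ℚ) ≤ p) hp1.ne').1 h2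
    linarith
  rw [hP, padicValRat.mul hu0 (pow_ne_zero _ hP0), hu1, zero_add, padicValRat.pow]
  exact dvd_mul_right _ _

/-- **Main theorem.** For 100 percent of the root stacks `X` over `ℚ` with a divisor `𝒟` all primitive
integer points `x` of `V` with a factorisation `F b (x) = u b * ∏ l, z l ^ e b l`, `m b ∣ e b l` for
`b ∈ I`, such that the coordinates of `x` and the `z l` are sums of `r` `S`-units with coefficients of
size at most `B H(x) ^ δ`, and the `z l` that occur in `𝒟` are squarefree and pairwise coprime, are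
`S`-integral points of `X` and satisfy
`h_{K_X + 𝒟}(x) ≤ N^(1)_S(𝒟, x) + (dim V - 1 + ε) h(x) + C0`. -/
theorem result (n : ℕ) {q : ℕ} (d : Fin q → ℕ) (C I : Finset (Fin q)) (hCI : Disjoint C I)
    (m : Fin q → ℕ) (hm : ∀ b ∈ I, 1 ≤ m b) {ν : ℕ} (e : Fin q → Fin ν → ℕ)
    (he : ∀ b ∈ I, ∀ l, m b ∣ e b l) (he0 : ∀ l, ∃ b, b ∉ C ∧ e b l ≠ 0) (r : ℕ) :
    ∃ h : MvPolynomial (Index n d) ℤ, h ≠ 0 ∧
      ∀ F : Fin q → MvPolynomial (Fin (n + 1)) ℚ,
        (∀ i, (F i).IsHomogeneous (d i)) → valueAt h F ≠ 0 →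
        Transversal F ∧
        ∀ (S : Finset ℕ), (∀ p ∈ S, p.Prime) → ∀ B ε : ℝ, 0 < ε → ∃ δ C0 : ℝ, 0 < δ ∧
          ∀ (x : Fin (n + 1) → ℤ) (z : Fin ν → ℤ), IsPrimitive x →
            (∀ c ∈ C, value (F c) x = 0) → (∀ l, z l ≠ 0 ∧ ∀ p ∈ S, ¬ (p : ℤ) ∣ z l) →
            (∀ b, b ∉ C → ∃ u : ℚ, IsSUnit S u ∧
              value (F b) x = u * ∏ l, (z l : ℚ) ^ e b l) →
            (∀ l, (∃ b, b ∉ C ∪ I ∧ e b l ≠ 0) → Squarefree (z l)) →
            (∀ l l', l ≠ l' → (∃ b, b ∉ C ∪ I ∧ e b l ≠ 0) → (∃ b, b ∉ C ∪ I ∧ e b l' ≠ 0) →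
              IsCoprime (z l) (z l')) →
            IsShortSum S r B δ x z →
            IsIntegralPoint S I m F x ∧
            stackHeight n d C I m x ≤ truncatedCounting S (Finset.univ \ (C ∪ I)) F x +
              ((n : ℝ) - C.card - 1 + ε) * Real.log (height x) + C0 := by
  classical
  obtain ⟨h1, h10, h1s⟩ := Pool.Agent.Q51.HG.gen_snc n d
  obtain ⟨h2, h20, h2s⟩ := Pool.Agent.Q51.VY.pairsYC (n := n) d C e he0 I m
    (fun b hb _ l hl => ⟨hm b hb, Nat.le_of_dvd (Nat.pos_of_ne_zero hl) (he b hb l)⟩) r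
  refine ⟨h1 * h2, mul_ne_zero h10 h20, fun F hF hv => ?_⟩
  rw [valueAt_eq, map_mul] at hv
  refine ⟨transversal_of h1s F hF (left_ne_zero_of_mul hv), ?_⟩
  intro S hS B ε hε
  set b : Fin S.card → ℕ := fun v => (S.equivFin.symm v : ℕ) with hb
  have hbS : ∀ v, b v ∈ S := fun v => (S.equivFin.symm v).2
  have hbp : ∀ v, (b v).Prime := fun v => hS _ (hbS v)
  have hbi : Function.Injective b := by
    intro v v' h
    exact S.equivFin.symm.injective (Subtype.ext h)
  have hunit : ∀ u : ℚ, IsSUnit S u → Pool.Agent.TH551.SU.IsSU b u := by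
    rintro u ⟨σ, e, hσ, rfl⟩
    refine ⟨σ, fun v => e (b v), hσ, ?_⟩
    congr 1
    rw [← Finset.prod_coe_sort S (fun p => (p : ℚ) ^ e p), ← Equiv.prod_comp S.equivFin.symm]
  obtain ⟨δ, C0, hδ, hmain⟩ := h2s F hF (right_ne_zero_of_mul hv) S.card b hbp hbi (max B 1) ε
    (le_max_right _ _) hε
  refine ⟨δ, C0, hδ, fun x z hx hV hz hFx hsq hcop hshort => ?_⟩
  have hex : ∀ b, ∃ u : ℚ, b ∉ C → IsSUnit S u ∧ value (F b) x = u * ∏ l, (z l : ℚ) ^ e b l := by
    intro b
    by_cases hb : b ∈ C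
    · exact ⟨1, fun h => absurd hb h⟩
    · obtain ⟨u, hu⟩ := hFx b hb
      exact ⟨u, fun _ => hu⟩
  choose u hu using hex
  have hval0 : ∀ i, i ∉ C → value (F i) x ≠ 0 := by
    intro i hi'
    rw [(hu i hi').2]
    refine mul_ne_zero ?_ (Finset.prod_ne_zero_iff.2 fun l _ => pow_ne_zero _ ?_)
    · exact Pool.Agent.TH551.SU.CRV.IsSU.ne_zero hbp (hunit _ (hu i hi').1)
    · exact_mod_cast (hz l).1
  constructor
  · intro i hi
    have hiC : i ∉ C := fun h => Finset.disjoint_left.1 hCI h hi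
    refine ⟨hval0 i hiC, fun p hpp hpS => ?_⟩
    rw [(hu i hiC).2]
    exact order_dvd S hS p hpp hpS (u i) (hu i hiC).1 (e i) z (fun l => (hz l).1) (m i) (he i hi)
  · have hpow : (0 : ℝ) ≤ (height x : ℝ) ^ δ := Real.rpow_nonneg (Nat.cast_nonneg _) _
    have hsh : Pool.Agent.Q51.VY.Short3 b r (max B 1) δ x z := by
      obtain ⟨t, a, c, e1, e2, e3, e4, e5⟩ := hshort
      refine ⟨t, a, c, fun j => hunit _ (e1 j), fun j i => ?_, fun j l => ?_, e4, e5⟩
      · exact (e2 j i).trans (mul_le_mul_of_nonneg_right (le_max_left _ _) hpow)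
      · exact (e3 j l).trans (mul_le_mul_of_nonneg_right (le_max_left _ _) hpow)
    have key := hmain x u z hx hV (fun i hi => hunit _ (hu i hi).1) (fun i hi => (hu i hi).2)
      (fun l => (hz l).1) (fun l v => (hz l).2 _ (hbS v)) hsh
    have hmem : ∀ i, i ∈ Finset.univ \ (C ∪ I) ↔ i ∉ C ∪ I := fun i => by simp
    have h1 := Pool.Agent.Q51.VY.trunc_eq S hS (Finset.univ \ (C ∪ I)) (fun i => value (F i) x) u e z
      (fun l => (hz l).1) (fun l => (hz l).2)
      (fun i hi => (hu i (fun h => (hmem i).1 hi (Finset.mem_union_left _ h))).1)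
      (fun i hi => hval0 i (fun h => (hmem i).1 hi (Finset.mem_union_left _ h)))
      (fun i hi => (hu i (fun h => (hmem i).1 hi (Finset.mem_union_left _ h))).2)
      (fun l ⟨i, hi, hil⟩ => hsq l ⟨i, (hmem i).1 hi, hil⟩)
      (fun l l' hne ⟨i, hi, hil⟩ ⟨i', hi', hil'⟩ => hcop l l' hne ⟨i, (hmem i).1 hi, hil⟩
        ⟨i', (hmem i').1 hi', hil'⟩)
    have h3 : ∑ l with ∃ i, i ∉ C ∧ i ∉ I ∧ e i l ≠ 0, Real.log |(z l : ℝ)| =
        truncatedCounting S (Finset.univ \ (C ∪ I)) F x := by
      unfold truncatedCounting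
      rw [h1]
      refine Finset.sum_congr ?_ fun _ _ => rfl
      ext l
      simp only [Finset.mem_filter, Finset.mem_univ, true_and, Finset.mem_sdiff, Finset.mem_union,
        not_or, and_assoc]
    rw [h3] at key
    have h4 : (∑ c ∈ C, ((d c : ℝ) + 1) + ∑ i ∈ Finset.univ \ C,
        (d i : ℝ) * (1 - if i ∈ I then 1 / (m i : ℝ) else 0) - 2 * n) * Real.log (height x) =
        stackHeight n d C I m x - ((n : ℝ) - C.card - 1) * Real.log (height x) := by
      unfold stackHeight
      have h5 : Finset.univ \ C = I ∪ (Finset.univ \ (C ∪ I)) := by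
        ext i
        simp only [Finset.mem_sdiff, Finset.mem_univ, true_and, Finset.mem_union, not_or]
        have h6 : i ∈ I → i ∉ C := fun hi h => Finset.disjoint_left.1 hCI h hi
        tauto
      have h7 : Disjoint I (Finset.univ \ (C ∪ I)) := by
        rw [Finset.disjoint_left]
        intro i hi h
        exact (hmem i).1 h (Finset.mem_union_right _ hi)
      rw [h5, Finset.sum_union h7, Finset.sum_add_distrib, Finset.sum_const, nsmul_eq_mul, mul_one]
      have h8 : ∑ i ∈ I, (d i : ℝ) * (1 - if i ∈ I then 1 / (m i : ℝ) else 0) =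
          ∑ i ∈ I, (1 - 1 / (m i : ℝ)) * d i :=
        Finset.sum_congr rfl fun i hi => by rw [if_pos hi]; ring
      have h9 : ∑ i ∈ Finset.univ \ (C ∪ I), (d i : ℝ) * (1 - if i ∈ I then 1 / (m i : ℝ) else 0) =
          ∑ i ∈ Finset.univ \ (C ∪ I), (d i : ℝ) :=
        Finset.sum_congr rfl fun i hi => by
          rw [if_neg fun h => (hmem i).1 hi (Finset.mem_union_right _ h)]
          ring
      rw [h8, h9]
      ring
    change (∑ c ∈ C, ((d c : ℝ) + 1) + ∑ i ∈ Finset.univ \ C,
        (d i : ℝ) * (1 - if i ∈ I then 1 / (m i : ℝ) else 0) - 2 * n) * Real.log (height x) ≤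
        truncatedCounting S (Finset.univ \ (C ∪ I)) F x +
          (ε * Real.log (height x) + C0) at key
    rw [h4] at key
    linarith

end Pool.Agent.Results.MP_a41896_nt.NoExceptionalSet
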