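import Pool.Agent.Q183.AM.Cartan10

/-!
# The inequality of Vojta for root stacks over projective spaces along linear recurrences

Let `K` be a number field, `H_i`, `i ∈ I`, hyperplanes of `ℙⁿ` over `K` in general position, and let
`x(s)` be points whose coordinates are sequences of integers of `K` with linear recurrences with
constant coefficients, such that the values of the equations of the hyperplanes are products
`κ μ ^ s ∏ g_j(s) ^ e_j` of powers of such sequences `g_j`, with arbitrary exponents.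

For a subset `B` of `I` and orders `o_i ≥ 1` let `𝒳` be the root stack of `ℙⁿ` of the orders `o_i`
along the `H_i`, `i ∉ B`, and `D` the sum of the `H_i` with `i ∈ B`. For all `B`, all orders and all
`s` such that `x(s)` is an integral point of `𝒳` outside the primes of `T`, we show that
`(|B| + ∑ (1 - min (1, n / o_i)) - n - 1) h(x(s)) ≤ N_T^(n)(D, x(s)) + (n (n + 1) / 2) log N 𝔟 + C`,
where the sum is over `i ∉ B` and the product of the different `g_j(s)` is the product of a squarefree
ideal and of an ideal `𝔟` prime to it: for almost all `s` with a constant `C`, without an `ε`, for all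
`s` with `C + ε s`, and for the `s` with `h(x(s)) ≥ c s` with `C + ε h(x(s))`. The exceptional set
consists of finitely many hyperplanes, which depend neither on `B` nor on the orders.

For `n = 1` this is the inequality of Vojta for stacky lines: the degree is that of `K_𝒳 + D`, the
counting function is truncated at the level one, and there is no exceptional set.
-/

set_option autoImplicit false

namespace Pool.Agent.Results.MP_a41896_nt.RootStacksAlongRecurrences

open IsDedekindDomain NumberField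

variable {K : Type} [Field K] [NumberField K] {n : ℕ} {I J : Type} [Fintype I] [Fintype J]

/-- `κ_i μ_i ^ s ∏ g_j(s) ^ e_ij` -/
def val (κ μ : I → 𝓞 K) (g : J → ℕ → 𝓞 K) (e : I → J → ℕ) (i : I) (s : ℕ) : 𝓞 K :=
  κ i * μ i ^ s * ∏ j, g j s ^ e i j

open Classical in
/-- the indices `j` of the bases whose exponents `e_ij` are not all equal -/
noncomputable def uneq (e : I → J → ℕ) : Finset J :=
  Finset.univ.filter fun j => ∃ i i', e i j ≠ e i' j

/-- the logarithmic height relative to `K` -/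
noncomputable def height (x : Fin (n + 1) → K) : ℝ :=
  ∑ w : InfinitePlace K, (w.mult : ℝ) * Real.log (⨆ k, w (x k)) +
    ∑ᶠ v : HeightOneSpectrum (𝓞 K), Real.log (⨆ k, FinitePlace.mk v (x k))

/-- the local height of the hyperplane `∑ b_k x_k = 0` at the prime `v` -/
noncomputable def localHeight (v : HeightOneSpectrum (𝓞 K)) (b x : Fin (n + 1) → K) : ℝ :=
  Real.log ((⨆ k, FinitePlace.mk v (x k)) * (⨆ k, FinitePlace.mk v (b k)) /
    FinitePlace.mk v (∑ k, b k * x k))

/-- `x` is an integral point, outside `T`, of the root stack of the orders `o_i` along the hyperplanes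
`H_i`, `i ∉ B`: the intersection numbers of `x` and `H_i` at the primes outside `T` are divisible by
`o_i` -/
def IsIntegralPoint (T : Set (HeightOneSpectrum (𝓞 K))) (B : Finset I) (o : I → ℕ)
    (a : I → Fin (n + 1) → K) (x : Fin (n + 1) → K) : Prop :=
  ∀ v, v ∉ T → ∀ i, i ∉ B → ∃ k : ℕ,
    localHeight v (a i) x = (o i * k : ℕ) * Real.log (Ideal.absNorm v.asIdeal)

/-- `N_T^(m)(D, x)`, the sum over the primes `v` outside `T` and over `i ∈ B` of
`min λ_{H_i, v} (m log N(v))` -/
noncomputable def counting (T : Set (HeightOneSpectrum (𝓞 K))) (m : ℕ) (B : Finset I)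
    (a : I → Fin (n + 1) → K) (x : Fin (n + 1) → K) : ℝ :=
  ∑ᶠ (v : HeightOneSpectrum (𝓞 K)) (_ : v ∉ T),
    ∑ i ∈ B, min (localHeight v (a i) x) (m * Real.log (Ideal.absNorm v.asIdeal))

open Classical in
/-- `|B| + ∑ (1 - min (1, n / o_i)) - n - 1`; for `n = 1` this is the degree
`|B| + ∑ (1 - 1 / o_i) - 2` of `K_𝒳 + D` -/
noncomputable def degree (n : ℕ) (B : Finset I) (o : I → ℕ) : ℝ :=
  (B.card : ℝ) + ∑ i ∈ Finset.univ \ B, (1 - min 1 ((n : ℝ) / o i)) - (n + 1)

/-- The inequality with the constant `C`, where `P` is the product of the different bases: for all `B`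
and all orders such that `x` is an integral point of the root stack, if `(P) = 𝔞 𝔟` with a squarefree
ideal `𝔞` prime to `𝔟`, then
`degree * h(x) ≤ N_T^(n)(D, x) + (n (n + 1) / 2) log N 𝔟 + C`. -/
def Vojta (T : Set (HeightOneSpectrum (𝓞 K))) (a : I → Fin (n + 1) → K) (P : 𝓞 K)
    (x : Fin (n + 1) → K) (C : ℝ) : Prop :=
  ∀ (B : Finset I) (o : I → ℕ), (∀ i, 1 ≤ o i) → IsIntegralPoint T B o a x →
    ∀ 𝔞 𝔟 : Ideal (𝓞 K), Ideal.span {P} = 𝔞 * 𝔟 → Squarefree 𝔞 → IsCoprime 𝔞 𝔟 →
      degree n B o * height x ≤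
        counting T n B a x + ((n + 1).choose 2 : ℕ) * Real.log (Ideal.absNorm 𝔟) + C

private theorem vojta_of {T : Set (HeightOneSpectrum (𝓞 K))} {a : I → Fin (n + 1) → 𝓞 K} :
    ∃ D : ℝ, 0 ≤ D ∧ ∀ {g : J → ℕ → 𝓞 K} {e : I → J → ℕ} {X : Fin (n + 1) → ℕ → 𝓞 K} {C : ℝ},
      0 ≤ C → ∀ {s : ℕ}, (fun k => X k s) ≠ 0 → (∀ i, ∑ k, (a i k : K) * (X k s : K) ≠ 0) →
      Pool.Agent.Q183.AM.TIneq T a g e X (Real.exp C) s →
      Vojta T (fun i k => (a i k : K)) (∏ j ∈ uneq e, g j s) (fun k => (X k s : K)) (D + C) := by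
  classical
  set D : ℝ := ∑ i, (Height.logHeight (fun k => (a i k : K)) +
    Module.finrank ℚ K * Real.log (n + 1)) with hD
  have hpos : ∀ i, 0 ≤ Height.logHeight (fun k => (a i k : K)) +
      Module.finrank ℚ K * Real.log (n + 1) := fun i =>
    add_nonneg (Pool.Agent.Q183.AM.logHeight_nonneg' _) (mul_nonneg (Nat.cast_nonneg _)
      (Real.log_nonneg (by
        have : (0 : ℝ) ≤ n := Nat.cast_nonneg n
        linarith)))
  refine ⟨D, Finset.sum_nonneg fun i _ => hpos i, ?_⟩
  intro g e X C hC s hx hne h B o ho hint 𝔞 𝔟 k1 k2 k3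
  obtain ⟨-, h2⟩ := h
  have h3 := h2 𝔞 𝔟 k1 k2 k3
  have hne' : ∀ i, ∑ k, a i k * X k s ≠ 0 := by
    intro i h0
    apply hne i
    have h1 : ∑ k, (a i k : K) * (X k s : K) = ((∑ k, a i k * X k s : 𝓞 K) : K) := by
      simp only [map_sum, map_mul]
    rw [h1, h0]
    exact map_zero (algebraMap (𝓞 K) K)
  have h4 := Pool.Agent.Q183.AM.trunc_split T n B a (fun k => X k s) hne' o
    (fun i => ho i) hint
  have hh : Height.logHeight (fun k => (X k s : K)) = height fun k => (X k s : K) :=
    Pool.Agent.Q183.AM.logHeight_sum (fun k => X k s) hx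
  rw [max_eq_left (Real.one_le_exp hC), Real.log_exp, hh] at h3
  rw [hh] at h4
  set H := height fun k => (X k s : K) with hH
  have hH0 : 0 ≤ H := by
    rw [← hh]
    exact Pool.Agent.Q183.AM.logHeight_nonneg' _
  have h5 : ∑ i ∈ Finset.univ \ B, min 1 ((n : ℝ) / o i) *
      (H + Height.logHeight (fun k => (a i k : K)) + Module.finrank ℚ K * Real.log (n + 1)) ≤
      (∑ i ∈ Finset.univ \ B, min 1 ((n : ℝ) / o i)) * H + D := by
    have e1 : ∀ i ∈ Finset.univ \ B, min 1 ((n : ℝ) / o i) *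
        (H + Height.logHeight (fun k => (a i k : K)) + Module.finrank ℚ K * Real.log (n + 1)) ≤
        min 1 ((n : ℝ) / o i) * H + (Height.logHeight (fun k => (a i k : K)) +
          Module.finrank ℚ K * Real.log (n + 1)) := by
      intro i _
      have e2 := mul_le_mul_of_nonneg_right (min_le_left (1 : ℝ) ((n : ℝ) / o i)) (hpos i)
      linarith
    refine (Finset.sum_le_sum e1).trans ?_
    rw [Finset.sum_add_distrib, Finset.sum_mul]
    refine add_le_add_right (Finset.sum_le_sum_of_subset_of_nonneg (Finset.subset_univ _)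
      fun i _ _ => hpos i) _
  have hdeg : degree n B o = ((Fintype.card I : ℝ) - (n + 1)) -
      ∑ i ∈ Finset.univ \ B, min 1 ((n : ℝ) / o i) := by
    unfold degree
    rw [Finset.sum_sub_distrib, Finset.sum_const, nsmul_eq_mul, mul_one,
      Finset.card_sdiff_of_subset (Finset.subset_univ _), Finset.card_univ,
      Nat.cast_sub (Finset.card_le_univ B)]
    ring
  have h6 : counting T n B (fun i k => (a i k : K)) (fun k => (X k s : K)) =
      Pool.Agent.Q183.AM.NtrB T n B (fun i k => (a i k : K)) (fun k => (X k s : K)) := rfl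
  rw [hdeg, h6, sub_mul]
  linarith

/-- **Main theorem.** Let the coordinates `X_k` and the bases `g_j` have linear recurrences, let the
`q` forms `a_i` be in general position, and let their values at `x(s)` be the
`κ_i μ_i ^ s ∏ g_j(s) ^ e_ij`. There is a finite set `Z` of hyperplanes, empty for `n = 1`, such that for
all finite sets `T` of primes:
(1) For every `η > 0` there is a constant `C` such that the inequality with `C` holds for all `s` with
`x(s)` outside `Z` and the hyperplanes `H_i` except for at most `η N` among any `N` consecutive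
integers, for `N` large and from some point on.
(2) For every `ε > 0` there is a constant `C` such that the inequality with `C + ε s` holds for all
`s` with `x(s)` outside `Z` and the `H_i`.
(3) For all `c, ε > 0` there is a constant `C` such that the inequality with `C + ε h(x(s))` holds for
all `s` with `x(s)` outside `Z` and the `H_i` and `h(x(s)) ≥ c s`. -/
theorem result (hI : n + 1 ≤ Fintype.card I) (g : J → ℕ → 𝓞 K)
    (hg : ∀ j, ∃ E : LinearRecurrence (𝓞 K), E.IsSolution (g j))
    (X : Fin (n + 1) → ℕ → 𝓞 K) (hX : ∀ k, ∃ E : LinearRecurrence (𝓞 K), E.IsSolution (X k))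
    (a : I → Fin (n + 1) → 𝓞 K)
    (hgen : ∀ B : Fin (n + 1) ↪ I, (Matrix.of fun i k => a (B i) k).det ≠ 0)
    (κ μ : I → 𝓞 K) (hμ : ∀ i, μ i ≠ 0) (e : I → J → ℕ)
    (hL : ∀ i s, ∑ k, a i k * X k s = val κ μ g e i s) :
    ∃ Z : Set (Fin (n + 1) → K), Z.Finite ∧ (∀ c ∈ Z, c ≠ 0) ∧ (n = 1 → Z = ∅) ∧
      ∀ T : Set (HeightOneSpectrum (𝓞 K)), T.Finite →
        let Off : ℕ → Prop := fun s => (∀ c ∈ Z, ∑ k, c k * (X k s : K) ≠ 0) ∧
          ∀ i, ∑ k, (a i k : K) * (X k s : K) ≠ 0
        let V : ℝ → ℕ → Prop := fun C s =>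
          Vojta T (fun i k => (a i k : K)) (∏ j ∈ uneq e, g j s) (fun k => (X k s : K)) C
        (∀ η : ℝ, 0 < η → ∃ (C : ℝ) (T z : ℕ), ∀ t N : ℕ, z ≤ t → T ≤ N →
          (({s | t ≤ s ∧ s < t + N ∧ Off s ∧ ¬ V C s}.ncard : ℕ) : ℝ) ≤ η * N) ∧
        (∀ ε : ℝ, 0 < ε → ∃ C : ℝ, ∀ s : ℕ, Off s → V (C + ε * s) s) ∧
        ∀ c ε : ℝ, 0 < c → 0 < ε → ∃ C : ℝ, ∀ s : ℕ, Off s →
          c * s ≤ height (fun k => (X k s : K)) →
          V (C + ε * height (fun k => (X k s : K))) s := by
  obtain ⟨Z, hZ1, hZ2, hZ3, h⟩ := Pool.Agent.Q183.AM.zall hI g hg X hX a hgen κ μ hμ e hL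
  refine ⟨Z, hZ1, hZ2, hZ3, fun T hT => ?_⟩
  obtain ⟨hA, hE⟩ := h T hT
  obtain ⟨D, hD, hV⟩ := vojta_of (J := J) (T := T) (a := a)
  intro Off V
  have part2 : ∀ ε : ℝ, 0 < ε → ∃ C : ℝ, ∀ s : ℕ, Off s → V (C + ε * s) s := by
    intro ε hε
    obtain ⟨C, hC, h⟩ := hE ε hε
    refine ⟨D + C, fun s hs => ?_⟩
    obtain ⟨k1, k2⟩ := Pool.Agent.Q183.AM.off_of hI hL hs.2
    have := hV (C := C + ε * s) (by positivity) k2 hs.2 (h s hs.1 k1)
    rw [← add_assoc] at this
    exact this
  refine ⟨fun η hη => ?_, part2, fun c ε hc hε => ?_⟩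
  · obtain ⟨C, T', z, hC, h⟩ := hA η hη
    refine ⟨D + C, T', z, fun t N ht hN => Pool.Agent.Q183.AM.ncard_form (h t N ht hN) ?_⟩
    rintro s ⟨k1, k2⟩ k3
    obtain ⟨j1, j2⟩ := Pool.Agent.Q183.AM.off_of hI hL k1.2
    exact k2 (hV hC j2 k1.2 (k3 k1.1 j1))
  · obtain ⟨C, h⟩ := part2 (ε * c) (mul_pos hε hc)
    refine ⟨C, fun s hs hcs B o ho hint 𝔞 𝔟 h1 h2 h3 =>
      (h s hs B o ho hint 𝔞 𝔟 h1 h2 h3).trans ?_⟩
    have h4 : ε * c * s ≤ ε * height (fun k => (X k s : K)) := by
      rw [mul_assoc]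
      exact mul_le_mul_of_nonneg_left hcs hε.le
    linarith

end Pool.Agent.Results.MP_a41896_nt.RootStacksAlongRecurrences
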