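import Mathlib
import Pool.Agent.Q128.SDF.SquareMany
import Pool.Agent.W125.CV.HT

/-!
# Vojta's conjecture for stacky projective lines at the integral points composed of numbers with small
digits, over all number fields

`a_0, a_1, a_2` are distinct rational points of the projective line. Let `𝒳` be the root stack of
order `n_j` at `a_j` for all `j` (a smooth proper Deligne-Mumford stack over the integers outside
the primes dividing some `n_j` or at which two of the `a_j` or some `a_j` and `∞` coincide, with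
coarse space the line), and let `𝒟_J` be the sum of the stacky points above the `a_j`, `j ∈ J`. Then
`K_𝒳 + 𝒟_J` is the pull back of `K + ∑_{j ∈ J} a_j + ∑_{j ∉ J} (1 - 1 / n_j) a_j`. An integral point of
`𝒳` over the `S`-integers of a number field `K` which does not meet the `a_j` generically is a point
`x` of the line over `K` such that for every prime `v` of `K` outside `S` the local intersection
number of `x` and `a_j` at `v` is divisible by `n_j` for all `j`.

We prove the truncated inequality for all integral points `x` for which the three numbers `x - a_j`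
are, up to fixed constants and a common factor, composed of numbers with small digits in a large base
`t`, over all number fields, without an exceptional set and with a gain.
-/

set_option autoImplicit false

namespace Pool.Agent.Results.MP_a41896_nt.SmallDigitPoints

open IsDedekindDomain NumberField
open Pool.Agent.Results.MP_a793bb_nt.SmallDigitPoints (logN)
open Pool.Agent.Results.MP_71c16a_nt.SmallDigitPoints (Composed)

/-- The absolute logarithmic Weil height `h(x)`. -/
noncomputable def height {K : Type} [Field K] [NumberField K] (x : K) : ℝ :=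
  (1 / (Module.finrank ℚ K : ℝ)) *
    ((∑ w : InfinitePlace K, (w.mult : ℝ) * Real.log (max 1 (w x))) +
      ∑ᶠ v : HeightOneSpectrum (𝓞 K), Real.log (max 1 (FinitePlace.mk v x)))

/-- `x` is an integral point over the `S`-integers of `K` of the line with stacky points of order
`n_j` at `a_j = u_j / w_j` (lowest terms): for every prime `v` of `K` which contains no prime of `S`
and every `j` the intersection number of `x` and `a_j` at `v`, that is the number `i` with
`|u_j - x w_j|_v = max(|x|_v, 1) exp(- i)` (normalised valuation), is a multiple of `n_j`. -/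
def IsIntegralPoint {K : Type} [Field K] [NumberField K] (S : Finset ℕ) (a : Fin 3 → ℚ)
    (n : Fin 3 → ℕ) (x : K) : Prop :=
  ∀ v : HeightOneSpectrum (𝓞 K), (∀ p ∈ S, (p : 𝓞 K) ∉ v.asIdeal) → ∀ j, ∃ i : ℕ,
    v.valuation K (((a j).num : K) - x * ((a j).den : K)) =
      max (v.valuation K x) 1 * WithZero.exp (-((n j * i : ℕ) : ℤ))

open Classical in
/-- The truncated counting function `N^{(1)}(𝒟_J, x) / [K : ℚ]`: the sum of
`log N(v) / [K : ℚ]` over the primes `v` of `K`, not above primes of `S`, at which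
`|u_j - x w_j|_v < max(|x|_v, 1)` for some `j ∈ J`. -/
noncomputable def truncated {K : Type} [Field K] [NumberField K] (S : Finset ℕ) (a : Fin 3 → ℚ)
    (J : Finset (Fin 3)) (x : K) : ℝ :=
  (∑ᶠ v : HeightOneSpectrum (𝓞 K),
      if (∀ p ∈ S, (p : 𝓞 K) ∉ v.asIdeal) ∧
        ∃ j ∈ J, v.valuation K (((a j).num : K) - x * ((a j).den : K)) < max (v.valuation K x) 1
      then Real.log (Ideal.absNorm v.asIdeal) else 0) / Module.finrank ℚ K

/-- `|J| + ∑_{j ∉ J} (1 - 1 / n_j) - 2`: the degree of `K_𝒳 + 𝒟_J`. -/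
noncomputable def degree (n : Fin 3 → ℕ) (J : Finset (Fin 3)) : ℝ :=
  ∑ _j ∈ J, (1 : ℝ) + ∑ j ∈ Jᶜ, (1 - 1 / (n j : ℝ)) - 2

private lemma height_eq {K : Type} [Field K] [NumberField K] (x : K) :
    Height.logHeight₁ x = Module.finrank ℚ K * height x :=
  Pool.Agent.W223.AC.MK.height_eq x

private lemma lin_eq {K : Type} [Field K] [NumberField K] (a : ℚ) (x : K) :
    Pool.Agent.W223.CV.lin (Pool.Agent.W223.AC.pt a) x = (a.num : K) - x * (a.den : K) := by
  show ((a.num : ℤ) : K) - x * (((a.den : ℕ) : ℤ) : K) = (a.num : K) - x * (a.den : K)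
  push_cast
  rfl

private lemma truncated_eq {K : Type} [Field K] [NumberField K] (S : Finset ℕ) (a : Fin 3 → ℚ)
    (J : Finset (Fin 3)) (x : K) : Pool.Agent.W223.CV.cc S
      (fun v : HeightOneSpectrum (𝓞 K) => ∃ j ∈ J,
        Pool.Agent.W223.CV.Near (Pool.Agent.W223.AC.pt (a j)) x v) =
      Module.finrank ℚ K * truncated S a J x := by
  classical
  have hd : (Module.finrank ℚ K : ℝ) ≠ 0 := by
    exact_mod_cast (Module.finrank_pos (R := ℚ) (M := K)).ne'
  unfold truncated
  rw [mul_div_cancel₀ _ hd]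
  unfold Pool.Agent.W223.CV.cc
  refine finsum_congr fun v => ?_
  have hiff : (∃ j ∈ J, Pool.Agent.W223.CV.Near (Pool.Agent.W223.AC.pt (a j)) x v) ↔
      ∃ j ∈ J, v.valuation K (((a j).num : K) - x * ((a j).den : K)) <
        max (v.valuation K x) 1 := by
    constructor
    · rintro ⟨j, hj, h⟩
      refine ⟨j, hj, ?_⟩
      rw [← lin_eq]
      exact h
    · rintro ⟨j, hj, h⟩
      refine ⟨j, hj, ?_⟩
      rw [← lin_eq] at h
      exact h
  by_cases h : (∀ p ∈ S, (p : 𝓞 K) ∉ v.asIdeal) ∧ ∃ j ∈ J,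
      v.valuation K (((a j).num : K) - x * ((a j).den : K)) < max (v.valuation K x) 1
  · rw [if_pos h, Pool.Agent.W223.CV.ct_pos ⟨h.1, hiff.2 h.2⟩]
  · rw [if_neg h, Pool.Agent.W223.CV.ct_neg fun h1 => h ⟨h1.1, hiff.1 h1.2⟩]

private lemma main (a : Fin 3 → ℚ) (ha : Function.Injective a) (D : ℕ) (ε : ℝ) (hε : 0 < ε) :
    ∃ δ : ℝ, 0 < δ ∧ ∃ T₀ : ℝ, 1 ≤ T₀ ∧ ∀ T : ℝ, T₀ ≤ T →
    ∀ (K : Type) [Field K] [NumberField K] (t : 𝓞 K) (x : K), Composed a D δ T t x →
      Real.log T ≤ logN t ∧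
      ∀ (S : Finset ℕ), (∀ p ∈ S, p.Prime) → ∀ n : Fin 3 → ℕ, (∀ j, 1 ≤ n j) →
      IsIntegralPoint S a n x → ∀ J : Finset (Fin 3),
        degree n J * height x + (1 - ε) * logN t ≤ truncated S a J x + ∑ p ∈ S, Real.log p := by
  classical
  obtain ⟨c, hc⟩ : ∃ c : Fin 3 → ℝ, c = fun j => Real.log (|(((Pool.Agent.W223.AC.pt (a j)).1 : ℤ) : ℝ)| +
    |(((Pool.Agent.W223.AC.pt (a j)).2 : ℤ) : ℝ)|) := ⟨_, rfl⟩
  have hc0 : ∀ j, 0 ≤ c j := by
    intro j
    rw [hc]
    apply Real.log_nonneg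
    have h1 : (1 : ℝ) ≤ |(((Pool.Agent.W223.AC.pt (a j)).2 : ℤ) : ℝ)| := by
      show (1 : ℝ) ≤ |((((a j).den : ℕ) : ℤ) : ℝ)|
      push_cast
      rw [abs_of_nonneg (Nat.cast_nonneg _)]
      exact_mod_cast (a j).pos
    have h2 := abs_nonneg (((Pool.Agent.W223.AC.pt (a j)).1 : ℤ) : ℝ)
    show (1 : ℝ) ≤ _
    linarith
  obtain ⟨C, hC⟩ : ∃ C : ℝ, C = ∑ j, c j := ⟨_, rfl⟩
  have hC0 : 0 ≤ C := by rw [hC]; exact Finset.sum_nonneg fun j _ => hc0 j
  obtain ⟨δ, hδ, T₁, hT₁, hline⟩ := Pool.Agent.Q128.SDF.line a ha D (ε / 2) (by positivity)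
  refine ⟨δ, hδ, max T₁ (Real.exp (C * (2 / ε))), hT₁.trans (le_max_left _ _), ?_⟩
  intro T hT K _ _ t x hx
  have hTT : T₁ ≤ T := (le_max_left _ _).trans hT
  have hlogT : C * (2 / ε) ≤ Real.log T := by
    have h1 := Real.log_le_log (Real.exp_pos _) ((le_max_right T₁ _).trans hT)
    rwa [Real.log_exp] at h1
  obtain ⟨P, hcomp, hbel⟩ := Pool.Agent.Q128.SDF.composed_compo hx
  obtain ⟨hxa, hP0, hNt, hmain, -⟩ := hline T hTT K t P x hcomp hbel
  have hd : (0 : ℝ) < Module.finrank ℚ K := by exact_mod_cast Module.finrank_pos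
  have hN : Pool.Agent.Q103.SDJ.lN t = Module.finrank ℚ K * logN t := by
    unfold Pool.Agent.Q103.SDJ.lN Pool.Agent.Results.MP_a793bb_nt.SmallDigitPoints.logN
    field_simp
  rw [hN] at hNt hmain
  have hNt' : Real.log T ≤ logN t := le_of_mul_le_mul_left hNt hd
  refine ⟨hNt', ?_⟩
  intro S hS n hn hint J
  have hxl : ∀ j, Pool.Agent.W223.CV.lin (Pool.Agent.W223.AC.pt (a j)) x ≠ 0 := by
    intro j h2
    rw [lin_eq] at h2
    apply hxa j
    have hd0 : ((a j).den : K) ≠ 0 := by exact_mod_cast (a j).den_nz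
    have h3 : (a j : K) = ((a j).num : K) / ((a j).den : K) := by
      exact_mod_cast Rat.cast_def (K := K) (a j)
    rw [h3, eq_div_iff hd0]
    exact (sub_eq_zero.1 h2).symm
  have hfin : ∀ J' : Finset (Fin 3), {v : HeightOneSpectrum (𝓞 K) | ∃ j ∈ J',
      Pool.Agent.W223.CV.Near (Pool.Agent.W223.AC.pt (a j)) x v}.Finite := by
    intro J'
    have : {v : HeightOneSpectrum (𝓞 K) | ∃ j ∈ J', Pool.Agent.W223.CV.Near
        (Pool.Agent.W223.AC.pt (a j)) x v} = ⋃ j ∈ J', {v | Pool.Agent.W223.CV.Near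
        (Pool.Agent.W223.AC.pt (a j)) x v} := by
      ext v; simp
    rw [this]
    exact J'.finite_toSet.biUnion fun j _ => Pool.Agent.W223.CV.near_finite _ _ (hxl j)
  have h1 := Pool.Agent.W223.AC.cc_outside Pool.Agent.W803.AC.t S hS _ (hfin Finset.univ)
  rw [← Pool.Agent.W223.CV.cnt_eq, ← Pool.Agent.W223.CV.cnt_eq] at h1
  have h2 := Pool.Agent.W223.CV.cnt_le Pool.Agent.W125.CV.t S S (le_refl S)
    (fun j => Pool.Agent.W223.AC.pt (a j)) x n J hxl hn (by
      intro v hv j hnear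
      obtain ⟨i, hi⟩ := hint v hv j
      rw [← lin_eq] at hi
      have hmax : (0 : WithZero (Multiplicative ℤ)) < max (v.valuation K x) 1 :=
        lt_max_of_lt_right zero_lt_one
      have hi0 : 1 ≤ i := by
        rw [Nat.one_le_iff_ne_zero]
        rintro rfl
        have h3 : v.valuation K (Pool.Agent.W223.CV.lin (Pool.Agent.W223.AC.pt (a j)) x) <
          max (v.valuation K x) 1 := hnear
        rw [hi] at h3
        simp at h3
      rw [hi]
      refine (mul_le_mul_iff_right₀ hmax).2 ?_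
      rw [WithZero.exp_le_exp]
      have h4 : n j * 1 ≤ n j * i := Nat.mul_le_mul_left _ hi0
      push_cast
      have h5 : ((n j : ℕ) : ℤ) * 1 ≤ (n j : ℤ) * i := by exact_mod_cast h4
      linarith)
  rw [truncated_eq] at h2
  have hH : Real.log (Height.mulHeight₁ x) = Module.finrank ℚ K * height x := height_eq x
  have hH' : Height.logHeight₁ x = Module.finrank ℚ K * height x := height_eq x
  rw [hH'] at hmain
  rw [hH] at h2
  obtain ⟨d, hdd⟩ : ∃ d : ℝ, d = Module.finrank ℚ K := ⟨_, rfl⟩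
  rw [← hdd] at hd hmain h1 h2
  -- the contributions of the stacky points outside `J`
  have h3 : ∑ j ∈ Jᶜ, (d * height x + d * c j) / n j ≤
      d * height x * ∑ j ∈ Jᶜ, 1 / (n j : ℝ) + d * C := by
    have e1 : ∀ j ∈ Jᶜ, (d * height x + d * c j) / n j ≤
        d * height x * (1 / (n j : ℝ)) + d * c j := by
      intro j _
      have hn1 : (1 : ℝ) ≤ n j := by exact_mod_cast hn j
      have e2 : d * c j / n j ≤ d * c j := div_le_self (mul_nonneg hd.le (hc0 j)) hn1
      rw [add_div, mul_one_div]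
      linarith
    refine (Finset.sum_le_sum e1).trans ?_
    rw [Finset.sum_add_distrib, ← Finset.mul_sum, ← Finset.mul_sum]
    have e3 : ∑ j ∈ Jᶜ, c j ≤ C := by
      rw [hC]
      exact Finset.sum_le_sum_of_subset_of_nonneg (Finset.subset_univ _) fun j _ _ => hc0 j
    have e4 : d * ∑ j ∈ Jᶜ, c j ≤ d * C := mul_le_mul_of_nonneg_left e3 hd.le
    linarith
  have hdeg : degree n J = 1 - ∑ j ∈ Jᶜ, 1 / (n j : ℝ) := by
    unfold degree
    rw [Finset.sum_sub_distrib]
    have e1 : ∑ _j ∈ J, (1 : ℝ) + ∑ _j ∈ Jᶜ, (1 : ℝ) = 3 := by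
      rw [Finset.sum_add_sum_compl]
      simp
    linarith
  have h4 : C ≤ ε / 2 * logN t := by
    calc C = ε / 2 * (C * (2 / ε)) := by field_simp
      _ ≤ ε / 2 * logN t := mul_le_mul_of_nonneg_left (hlogT.trans hNt') (by positivity)
  have h5 : d * C ≤ d * (ε / 2 * logN t) := mul_le_mul_of_nonneg_left h4 hd.le
  have hcj : ∀ j : Fin 3, c j = Real.log (|(((Pool.Agent.W223.AC.pt (a j)).1 : ℤ) : ℝ)| +
    |(((Pool.Agent.W223.AC.pt (a j)).2 : ℤ) : ℝ)|) := fun j => by rw [hc]
  simp only [← hcj] at h2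
  have h6 : d * (degree n J * height x + (1 - ε) * logN t) ≤
      d * (truncated S a J x + ∑ p ∈ S, Real.log p) := by
    rw [hdeg]
    nlinarith
  exact le_of_mul_le_mul_left h6 hd

private lemma prime_mem {K : Type} [Field K] [NumberField K] {M : ℕ} (hM : M ≠ 0)
    (v : HeightOneSpectrum (𝓞 K)) (h : ((M : ℕ) : 𝓞 K) ∈ v.asIdeal) :
    ∃ p ∈ M.primeFactors, (p : 𝓞 K) ∈ v.asIdeal := by
  have h3 := Nat.prod_factorization_pow_eq_self hM
  have h4 : (M.factorization.prod fun p k => p ^ k : ℕ) =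
      ∏ p ∈ M.primeFactors, p ^ M.factorization p := rfl
  rw [h4] at h3
  rw [← h3] at h
  push_cast at h
  obtain ⟨p, hp, hpv⟩ := v.isPrime.prod_mem_iff.1 h
  exact ⟨p, hp, v.isPrime.mem_of_pow_mem _ hpv⟩

private lemma degree_empty (n : Fin 3 → ℕ) : degree n ∅ = 1 - ∑ j, 1 / (n j : ℝ) := by
  classical
  unfold degree
  rw [Finset.sum_empty, Finset.compl_empty, Finset.sum_sub_distrib]
  simp
  ring

private lemma truncated_empty {K : Type} [Field K] [NumberField K] (S : Finset ℕ) (a : Fin 3 → ℚ)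
    (x : K) : truncated S a ∅ x = 0 := by
  classical
  unfold truncated
  have h : (fun v : HeightOneSpectrum (𝓞 K) => if (∀ p ∈ S, (p : 𝓞 K) ∉ v.asIdeal) ∧
        ∃ j ∈ (∅ : Finset (Fin 3)), v.valuation K (((a j).num : K) - x * ((a j).den : K)) <
          max (v.valuation K x) 1
      then Real.log (Ideal.absNorm v.asIdeal) else 0) = fun _ => 0 := by
    funext v
    rw [if_neg]
    rintro ⟨-, j, hj, -⟩
    exact absurd hj (Finset.notMem_empty j)
  rw [h, finsum_zero, zero_div]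

/-- **Vojta's conjecture for stacky projective lines at the integral points composed of numbers with
small digits.** Let `a_0, a_1, a_2` be distinct rational numbers.

(1) For all `D` and `ε > 0` there are `δ > 0` and `T₀` such that
`h_{K_𝒳 + 𝒟_J}(x) + (1 - ε) log |N(t)| / [K : ℚ] ≤ N^{(1)}(𝒟_J, x) / [K : ℚ] + ∑_{p ∈ S} log p`
for all `T ≥ T₀`, all number fields `K`, all bases `t`, all `x ∈ K` composed of numbers with small
digits, all finite sets `S` of primes, all orders `n_j ≥ 1` for which `x` is an integral point over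
the `S`-integers of the root stack `𝒳`, and all sets `J` of indices. The constants do not depend on
`K`, `S`, the orders and `J`; the height is the one of the field, divided by the degree.

(2) If the Euler characteristic of the stacky line without the points of `𝒟` is `≤ 0`, that is
`∑ 1 / n_j ≤ 1`, then for all finite sets `S` of primes, if `δ` is small and `T` is large, no point
over any number field which is composed of numbers with small digits is an integral point over the
`S`-integers.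

(3) For the orders `(2, 1, 1)` there are, for a suitable fixed `S`, all `D ≥ 3`, `δ > 0` and large
`T`, at least `c √B` integral points `x ∈ ℚ` of height `≤ log B`, for large `B`, composed of
numbers with small digits. -/
theorem result :
    (∀ a : Fin 3 → ℚ, Function.Injective a → ∀ (D : ℕ) (ε : ℝ), 0 < ε →
      ∃ δ : ℝ, 0 < δ ∧ ∃ T₀ : ℝ, 1 ≤ T₀ ∧ ∀ T : ℝ, T₀ ≤ T →
      ∀ (K : Type) [Field K] [NumberField K] (t : 𝓞 K) (x : K), Composed a D δ T t x →
      ∀ S : Finset ℕ, (∀ p ∈ S, p.Prime) → ∀ n : Fin 3 → ℕ, (∀ j, 1 ≤ n j) →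
      IsIntegralPoint S a n x → ∀ J : Finset (Fin 3),
        degree n J * height x + (1 - ε) * logN t ≤ truncated S a J x + ∑ p ∈ S, Real.log p) ∧
    (∀ a : Fin 3 → ℚ, Function.Injective a → ∀ (D : ℕ) (S : Finset ℕ), (∀ p ∈ S, p.Prime) →
      ∃ δ : ℝ, 0 < δ ∧ ∃ T₀ : ℝ, 1 ≤ T₀ ∧ ∀ T : ℝ, T₀ ≤ T →
      ∀ (K : Type) [Field K] [NumberField K] (t : 𝓞 K) (x : K), Composed a D δ T t x →
      ∀ n : Fin 3 → ℕ, (∀ j, 1 ≤ n j) → ∑ j, 1 / (n j : ℝ) ≤ 1 → ¬ IsIntegralPoint S a n x) ∧
    (∀ a : Fin 3 → ℚ, Function.Injective a →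
      ∃ c : ℝ, 0 < c ∧ ∃ S : Finset ℕ, (∀ p ∈ S, p.Prime) ∧
      ∀ (D : ℕ) (δ : ℝ), 3 ≤ D → 0 < δ → ∃ T₁ : ℝ, ∀ T : ℝ, T₁ ≤ T →
      ∃ B₀ : ℝ, ∀ B : ℝ, B₀ ≤ B → ∃ E : Finset ℚ, c * √B ≤ E.card ∧ ∀ x ∈ E,
        height x ≤ Real.log B ∧ (∃ t : 𝓞 ℚ, Composed a D δ T t x) ∧
        IsIntegralPoint S a ![2, 1, 1] x) := by
  refine ⟨?_, ?_, ?_⟩
  · intro a ha D ε hε
    obtain ⟨δ, hδ, T₀, hT₀, h⟩ := main a ha D ε hε
    exact ⟨δ, hδ, T₀, hT₀, fun T hT K _ _ t x hx S hS n hn hint J =>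
      (h T hT K t x hx).2 S hS n hn hint J⟩
  · intro a ha D S hS
    obtain ⟨δ, hδ, T₀, hT₀, h⟩ := main a ha D (1 / 2) (by norm_num)
    obtain ⟨c, hc⟩ : ∃ c, c = ∑ p ∈ S, Real.log p := ⟨_, rfl⟩
    refine ⟨δ, hδ, max T₀ (Real.exp (2 * c + 1)), hT₀.trans (le_max_left _ _), ?_⟩
    intro T hT K _ _ t x hx n hn hsum hint
    obtain ⟨h1, h2⟩ := h T ((le_max_left _ _).trans hT) K t x hx
    have h3 := h2 S hS n hn hint ∅
    rw [truncated_empty, zero_add, ← hc, degree_empty] at h3
    have h4 : 0 ≤ height x := by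
      have h5 := Height.zero_le_logHeight₁ x
      have hd : (0 : ℝ) < Module.finrank ℚ K := by exact_mod_cast Module.finrank_pos
      rw [height_eq x] at h5
      exact (mul_nonneg_iff_of_pos_left hd).mp h5
    have h6 : 0 ≤ (1 - ∑ j, 1 / (n j : ℝ)) * height x := mul_nonneg (by linarith) h4
    have h7 : 2 * c + 1 ≤ Real.log T := by
      have h8 := Real.log_le_log (Real.exp_pos _) ((le_max_right T₀ _).trans hT)
      rwa [Real.log_exp] at h8
    linarith
  · intro a ha
    obtain ⟨c, hc, h⟩ := Pool.Agent.Q128.SDF.many_sq a ha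
    have hM0 : Pool.Agent.W337.AC.MOBC.MM a ∅ ≠ 0 :=
      Pool.Agent.W337.AC.MOBC.MM_ne a ha ∅ (by simp)
    refine ⟨c, hc, (Pool.Agent.W337.AC.MOBC.MM a ∅).primeFactors,
      fun p hp => Nat.prime_of_mem_primeFactors hp, ?_⟩
    intro D δ hD hδ
    obtain ⟨T₁, h1⟩ := h D δ hD hδ
    refine ⟨T₁, fun T hT => ?_⟩
    obtain ⟨X₀, h2⟩ := h1 T hT
    refine ⟨X₀, fun B hB => ?_⟩
    obtain ⟨E, hE, h3⟩ := h2 B hB
    refine ⟨E, hE, fun x hx => ?_⟩
    obtain ⟨h4, h5, h6⟩ := h3 x hx
    refine ⟨?_, h5, ?_⟩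
    · have h7 := height_eq x
      rw [Module.finrank_self, Nat.cast_one, one_mul] at h7
      rw [← h7]
      exact h4
    · intro v hv j
      have hMv : ((Pool.Agent.W337.AC.MOBC.MM a ∅ : ℕ) : 𝓞 ℚ) ∉ v.asIdeal := by
        intro hmem
        obtain ⟨p, hp, hpv⟩ := prime_mem hM0 v hmem
        exact hv p hp hpv
      obtain ⟨i, hi⟩ := h6 v hMv j
      rw [lin_eq] at hi
      exact ⟨i, hi⟩

end Pool.Agent.Results.MP_a41896_nt.SmallDigitPoints
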